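import Mathlib
import Pool.Agent.Helper55.TdcMain

/-!
# The degree of twisted commutativity of a virtually abelian group

For a finitely generated virtually abelian group `G` and any endomorphism `φ`, the degree of
twisted commutativity `tdc_X(φ, G)` does not depend on the finite generating set `X`.
-/

set_option autoImplicit false

namespace Pool.Agent.Results.MP_d54b08_al.TdcIndependent

open Filter

/-- `wordBall X n` is the ball `𝔹_{G,X}(n)`: the set of elements of `G` that can be written as a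
product of at most `n` elements of `X ∪ X⁻¹`. -/
def wordBall {G : Type*} [Group G] (X : Set G) (n : ℕ) : Set G :=
  {g | ∃ l : List G, l.length ≤ n ∧ (∀ x ∈ l, x ∈ X ∨ x⁻¹ ∈ X) ∧ l.prod = g}

/-- `tdc X φ` is the degree of twisted commutativity `tdc_X(φ, G)`: the limsup over `n` of
`|{(x, y) ∈ 𝔹(n)² : x y = y φ(x)}| / |𝔹(n)|²`. -/
noncomputable def tdc {G : Type*} [Group G] (X : Set G) (φ : G →* G) : ℝ :=
  limsup (fun n : ℕ =>
    (({p : G × G | p.1 ∈ wordBall X n ∧ p.2 ∈ wordBall X n ∧
        p.1 * p.2 = p.2 * φ p.1}.ncard : ℕ) : ℝ) / (((wordBall X n).ncard : ℕ) : ℝ) ^ 2) atTop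

/-- If `G` is a finitely generated virtually abelian group, `φ` is an endomorphism of `G`, and `X`
and `Y` are finite generating sets of `G`, then `tdc_X(φ, G) = tdc_Y(φ, G)`. -/
theorem result (G : Type*) [Group G]
    (hG : ∃ A : Subgroup G, A.FiniteIndex ∧ ∀ a ∈ A, ∀ b ∈ A, a * b = b * a)
    (φ : G →* G) (X Y : Finset G)
    (hX : Subgroup.closure (X : Set G) = ⊤) (hY : Subgroup.closure (Y : Set G) = ⊤) :
    tdc (X : Set G) φ = tdc (Y : Set G) φ := by
  obtain ⟨A, hA, hab⟩ := hG
  obtain ⟨κ, hκ⟩ := Pool.Agent.Helper55.Tdc.exists_density A hab φ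
  have key : ∀ Z : Finset G, Subgroup.closure (Z : Set G) = ⊤ → tdc (Z : Set G) φ = κ := by
    intro Z hZ
    have h := hκ (Z : Set G) Z.finite_toSet hZ
    unfold tdc
    refine Tendsto.limsup_eq (h.congr fun n => ?_)
    unfold Pool.Agent.Helper55.Tdc.dens Pool.Agent.Helper55.Tdc.cnt
    congr 2
    refine congrArg Set.ncard ?_
    ext p
    constructor
    · rintro ⟨h1, h2, h3⟩
      exact ⟨h2, h3, h1⟩
    · rintro ⟨h1, h2, h3⟩
      exact ⟨h3, h1, h2⟩
  rw [key X hX, key Y hY]

end Pool.Agent.Results.MP_d54b08_al.TdcIndependent
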